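import Pool.Agent.Y329.CG.Stm

/-!
Job CG-GT (project CG of helper329): genericity implies the graph conditions.
-/

set_option autoImplicit false

open Set Filter Topology MeasureTheory

namespace Pool.Agent.Y908.CG.GT

open Pool.Agent.Y329.CG

open Classical in
theorem key (p q : ℝ → ℝ) (hG : Good p q) (A : Finset ℝ) (hA : ∀ x ∈ A, x ∈ Ioo (0:ℝ) 3)
    (c : ℝ) (hc : c = 1 ∨ c = 2) :
    (A.filter fun x => x = c).card + (A.filter fun x => x ∈ Ioo (0:ℝ) 2 ∧ p x ∈ A).card +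
      (A.filter fun x => x ∈ Ioo (1:ℝ) 3 ∧ q x ∈ A).card ≤ A.card := by
  obtain ⟨e⟩ : Nonempty (A ≃ Fin A.card) := ⟨A.equivFin⟩
  let X : Fin A.card → ℝ := fun i => ((e.symm i : A) : ℝ)
  have hX : Function.Injective X := by
    intro i j hij
    exact e.symm.injective (Subtype.ext hij)
  have hXA : ∀ i, X i ∈ A := fun i => (e.symm i).2
  have hcard : ∀ P : ℝ → Prop,
      ((Finset.univ : Finset (Fin A.card)).filter fun i => P (X i)).card = (A.filter P).card := by
    intro P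
    rw [← Finset.card_image_of_injective _ hX]
    congr 1
    ext x
    rw [Finset.mem_image, Finset.mem_filter]
    constructor
    · rintro ⟨i, hi, rfl⟩
      exact ⟨hXA i, (Finset.mem_filter.1 hi).2⟩
    · rintro ⟨hx, hP⟩
      have e1 : X (e ⟨x, hx⟩) = x := by
        simp only [X, Equiv.symm_apply_apply]
      refine ⟨e ⟨x, hx⟩, ?_, e1⟩
      rw [Finset.mem_filter]
      exact ⟨Finset.mem_univ _, by rw [e1]; exact hP⟩
  let f : (ℝ → ℝ) → Fin A.card → Fin A.card := fun g i =>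
    if h : g (X i) ∈ A then e ⟨g (X i), h⟩ else i
  have hf : ∀ (g : ℝ → ℝ) (i : Fin A.card), g (X i) ∈ A → g (X i) = X (f g i) := by
    intro g i h
    simp only [f, dif_pos h, X, Equiv.symm_apply_apply]
  have h := hG A.card X hX (Finset.univ.filter fun i => X i = c)
    (Finset.univ.filter fun i => X i ∈ Ioo (0:ℝ) 2 ∧ p (X i) ∈ A)
    (Finset.univ.filter fun i => X i ∈ Ioo (1:ℝ) 3 ∧ q (X i) ∈ A) (f p) (f q)
    (by
      intro i hi
      rw [(Finset.mem_filter.1 hi).2]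
      exact hc)
    (fun i => hA _ (hXA i))
    (by
      intro i hi
      have h1 := (Finset.mem_filter.1 hi).2
      exact ⟨h1.1, hf p i h1.2⟩)
    (by
      intro i hi
      have h1 := (Finset.mem_filter.1 hi).2
      exact ⟨h1.1, hf q i h1.2⟩)
  have e1 := hcard (fun x => x = c)
  have e2 := hcard (fun x => x ∈ Ioo (0:ℝ) 2 ∧ p x ∈ A)
  have e3 := hcard (fun x => x ∈ Ioo (1:ℝ) 3 ∧ q x ∈ A)
  have h' : ((Finset.univ : Finset (Fin A.card)).filter fun i => X i = c).card +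
      ((Finset.univ : Finset (Fin A.card)).filter fun i => X i ∈ Ioo (0:ℝ) 2 ∧ p (X i) ∈ A).card +
      ((Finset.univ : Finset (Fin A.card)).filter fun i =>
        X i ∈ Ioo (1:ℝ) 3 ∧ q (X i) ∈ A).card ≤ A.card := by
    convert h
  have f1 : ((Finset.univ : Finset (Fin A.card)).filter fun i => X i = c).card =
      (A.filter fun x => x = c).card := by convert e1
  have f2 : ((Finset.univ : Finset (Fin A.card)).filter fun i =>
      X i ∈ Ioo (0:ℝ) 2 ∧ p (X i) ∈ A).card =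
      (A.filter fun x => x ∈ Ioo (0:ℝ) 2 ∧ p x ∈ A).card := by convert e2
  have f3 : ((Finset.univ : Finset (Fin A.card)).filter fun i =>
      X i ∈ Ioo (1:ℝ) 3 ∧ q (X i) ∈ A).card =
      (A.filter fun x => x ∈ Ioo (1:ℝ) 3 ∧ q x ∈ A).card := by convert e3
  rw [f1, f2, f3] at h'
  exact h'

open Classical in
theorem count (A : Finset ℝ) (z : ℝ) (hz : z ∉ Ioo (0:ℝ) 3) :
    (A.filter fun x => x = z).card + (A.filter fun x => x ∈ Ioo (0:ℝ) 3).card ≤ A.card := by
  rw [← Finset.card_union_of_disjoint]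
  · exact Finset.card_le_card (Finset.union_subset (Finset.filter_subset _ _)
      (Finset.filter_subset _ _))
  · rw [Finset.disjoint_left]
    intro x h1 h2
    rw [(Finset.mem_filter.1 h1).2] at h2
    exact hz (Finset.mem_filter.1 h2).2

theorem maps {s : Fin 2 → Equiv.Perm ℝ} (h : Pair0 s) (i : Fin 2) (x : ℝ)
    (hx : x ∈ Ioo (lo i) (hi i)) : s i x ∈ Ioo (lo i) (hi i) := by
  have h1 : s i (lo i) = lo i := h.out i _ (by simp)
  have h2 : s i (hi i) = hi i := h.out i _ (by simp)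
  have h3 := h.mono i hx.1
  have h4 := h.mono i hx.2
  rw [h1] at h3
  rw [h2] at h4
  exact ⟨h3, h4⟩

theorem done : S_GT := by
  classical
  intro s hs hG
  have l0 : lo 0 = 0 := by simp [lo]
  have l1 : lo 1 = 1 := by simp [lo]
  have u0 : hi 0 = 2 := by simp [hi]
  have u1 : hi 1 = 3 := by simp [hi]; norm_num
  have m0 : ∀ x ∈ Ioo (0:ℝ) 2, s 0 x ∈ Ioo (0:ℝ) 2 := by
    intro x hx
    have := maps hs 0 x (by rw [l0, u0]; exact hx)
    rwa [l0, u0] at this
  have m1 : ∀ x ∈ Ioo (1:ℝ) 3, s 1 x ∈ Ioo (1:ℝ) 3 := by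
    intro x hx
    have := maps hs 1 x (by rw [l1, u1]; exact hx)
    rwa [l1, u1] at this
  constructor
  · intro A
    have hk := key (s 0) (s 1) hG (A.filter fun x => x ∈ Ioo (0:ℝ) 3)
      (fun x hx => (Finset.mem_filter.1 hx).2) 1 (Or.inl rfl)
    have hc := count A 0 (by simp)
    have h1 : (A.filter fun x => x ∈ Dp 0 ∧ s 0 x ∈ A) ⊆ (A.filter fun x => x = 0) ∪
        ((A.filter fun x => x ∈ Ioo (0:ℝ) 3).filter fun x => x ∈ Ioo (0:ℝ) 2 ∧
          s 0 x ∈ (A.filter fun x => x ∈ Ioo (0:ℝ) 3)) := by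
      intro x hx
      rw [Finset.mem_filter] at hx
      obtain ⟨hxA, hx1, hx2⟩ := hx
      unfold Dp at hx1
      rw [l0, u0] at hx1
      rw [Finset.mem_union]
      rcases hx1.1.eq_or_lt with h | h
      · left
        exact Finset.mem_filter.2 ⟨hxA, h.symm⟩
      · right
        have h3 : x ∈ Ioo (0:ℝ) 2 := ⟨h, hx1.2⟩
        have h4 := m0 x h3
        refine Finset.mem_filter.2 ⟨Finset.mem_filter.2 ⟨hxA, h, by linarith [hx1.2]⟩, h3,
          Finset.mem_filter.2 ⟨hx2, h4.1, by linarith [h4.2]⟩⟩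
    have h2 : (A.filter fun x => x ∈ Dp 1 ∧ s 1 x ∈ A) ⊆
        ((A.filter fun x => x ∈ Ioo (0:ℝ) 3).filter fun x => x = 1) ∪
        ((A.filter fun x => x ∈ Ioo (0:ℝ) 3).filter fun x => x ∈ Ioo (1:ℝ) 3 ∧
          s 1 x ∈ (A.filter fun x => x ∈ Ioo (0:ℝ) 3)) := by
      intro x hx
      rw [Finset.mem_filter] at hx
      obtain ⟨hxA, hx1, hx2⟩ := hx
      unfold Dp at hx1
      rw [l1, u1] at hx1
      rw [Finset.mem_union]
      rcases hx1.1.eq_or_lt with h | h
      · left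
        exact Finset.mem_filter.2 ⟨Finset.mem_filter.2 ⟨hxA, by rw [← h]; norm_num⟩, h.symm⟩
      · right
        have h3 : x ∈ Ioo (1:ℝ) 3 := ⟨h, hx1.2⟩
        have h4 := m1 x h3
        refine Finset.mem_filter.2 ⟨Finset.mem_filter.2 ⟨hxA, by linarith, hx1.2⟩, h3,
          Finset.mem_filter.2 ⟨hx2, by linarith [h4.1], h4.2⟩⟩
    have c1 := (Finset.card_le_card h1).trans (Finset.card_union_le _ _)
    have c2 := (Finset.card_le_card h2).trans (Finset.card_union_le _ _)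
    omega
  · intro A
    have hk := key (s 0) (s 1) hG (A.filter fun x => x ∈ Ioo (0:ℝ) 3)
      (fun x hx => (Finset.mem_filter.1 hx).2) 2 (Or.inr rfl)
    have hc := count A 3 (by simp)
    have h1 : (A.filter fun x => x ∈ Dm 0 ∧ s 0 x ∈ A) ⊆
        ((A.filter fun x => x ∈ Ioo (0:ℝ) 3).filter fun x => x = 2) ∪
        ((A.filter fun x => x ∈ Ioo (0:ℝ) 3).filter fun x => x ∈ Ioo (0:ℝ) 2 ∧
          s 0 x ∈ (A.filter fun x => x ∈ Ioo (0:ℝ) 3)) := by
      intro x hx
      rw [Finset.mem_filter] at hx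
      obtain ⟨hxA, hx1, hx2⟩ := hx
      unfold Dm at hx1
      rw [l0, u0] at hx1
      rw [Finset.mem_union]
      rcases hx1.2.eq_or_lt with h | h
      · left
        exact Finset.mem_filter.2 ⟨Finset.mem_filter.2 ⟨hxA, by rw [h]; norm_num⟩, h⟩
      · right
        have h3 : x ∈ Ioo (0:ℝ) 2 := ⟨hx1.1, h⟩
        have h4 := m0 x h3
        refine Finset.mem_filter.2 ⟨Finset.mem_filter.2 ⟨hxA, hx1.1, by linarith⟩, h3,
          Finset.mem_filter.2 ⟨hx2, h4.1, by linarith [h4.2]⟩⟩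
    have h2 : (A.filter fun x => x ∈ Dm 1 ∧ s 1 x ∈ A) ⊆ (A.filter fun x => x = 3) ∪
        ((A.filter fun x => x ∈ Ioo (0:ℝ) 3).filter fun x => x ∈ Ioo (1:ℝ) 3 ∧
          s 1 x ∈ (A.filter fun x => x ∈ Ioo (0:ℝ) 3)) := by
      intro x hx
      rw [Finset.mem_filter] at hx
      obtain ⟨hxA, hx1, hx2⟩ := hx
      unfold Dm at hx1
      rw [l1, u1] at hx1
      rw [Finset.mem_union]
      rcases hx1.2.eq_or_lt with h | h
      · left
        exact Finset.mem_filter.2 ⟨hxA, h⟩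
      · right
        have h3 : x ∈ Ioo (1:ℝ) 3 := ⟨hx1.1, h⟩
        have h4 := m1 x h3
        refine Finset.mem_filter.2 ⟨Finset.mem_filter.2 ⟨hxA, by linarith [hx1.1], h⟩, h3,
          Finset.mem_filter.2 ⟨hx2, by linarith [h4.1], h4.2⟩⟩
    have c1 := (Finset.card_le_card h1).trans (Finset.card_union_le _ _)
    have c2 := (Finset.card_le_card h2).trans (Finset.card_union_le _ _)
    omega

end Pool.Agent.Y908.CG.GT
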