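import Pool.Agent.Y171.CG.Stm2
import Pool.Agent.Y455.CG.The
import Pool.Agent.Y455.CG.BinTru
import Pool.Agent.Y563.CG.Fb

/-!
# Project CG: integral of a binomial weight, and `J` for step sequences
-/

set_option autoImplicit false

open MeasureTheory Finset Set Filter Topology

namespace Pool.Agent.Y908.CG

open Pool.Agent.Y171.CG
open Polynomial (derivative)

/-- the binomial tail -/
noncomputable def TP (N a : ℕ) : Polynomial ℝ :=
  ∑ i ∈ range (N + 1 - a), bernsteinPolynomial ℝ (N + 1) (a + i + 1)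

theorem TP_deriv (N a : ℕ) (h : a ≤ N) :
    derivative (TP N a) = ((N : Polynomial ℝ) + 1) * bernsteinPolynomial ℝ N a := by
  unfold TP
  rw [Polynomial.derivative_sum]
  have h1 : ∀ i ∈ range (N + 1 - a), derivative (bernsteinPolynomial ℝ (N + 1) (a + i + 1)) =
      ((N : Polynomial ℝ) + 1) * (bernsteinPolynomial ℝ N (a + i) -
        bernsteinPolynomial ℝ N (a + (i + 1))) := by
    intro i _
    rw [bernsteinPolynomial.derivative_succ_aux]
    rfl
  rw [Finset.sum_congr rfl h1, ← Finset.mul_sum,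
    Finset.sum_range_sub' (fun i => bernsteinPolynomial ℝ N (a + i)), add_zero,
    bernsteinPolynomial.eq_zero_of_lt ℝ (show N < a + (N + 1 - a) by omega), sub_zero]

theorem TP_one (N a : ℕ) (h : a ≤ N) : (TP N a).eval 1 = 1 := by
  unfold TP
  rw [Polynomial.eval_finsetSum]
  obtain ⟨b, rfl⟩ := Nat.exists_eq_add_of_le h
  rw [show a + b + 1 - a = b + 1 by omega, Finset.sum_range_succ, Finset.sum_eq_zero, zero_add]
  · rw [← Pool.Agent.Y455.CG.bw_eval]
    simp [bw]
  · intro i hi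
    rw [Finset.mem_range] at hi
    rw [← Pool.Agent.Y455.CG.bw_eval, bw, sub_self, zero_pow (by omega), mul_zero]

theorem TP_zero (N a : ℕ) : (TP N a).eval 0 = 0 := by
  unfold TP
  rw [Polynomial.eval_finsetSum]
  refine Finset.sum_eq_zero fun i _ => ?_
  rw [← Pool.Agent.Y455.CG.bw_eval, bw, zero_pow (by omega), mul_zero, zero_mul]

theorem int : S_INT := by
  intro n c x hc hcn hx
  obtain ⟨a, rfl⟩ : ∃ a, c = a + 2 := ⟨c - 2, by omega⟩
  obtain ⟨N, rfl⟩ : ∃ N, n = N + 2 := ⟨n - 2, by omega⟩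
  have haN : a ≤ N := by omega
  set K : ℝ := x * ((N : ℝ) + 2) / (((a : ℝ) + 2) * ((a : ℝ) + 1)) with hK
  -- the primitive
  have hder : ∀ z ∈ Ici x, HasDerivAt (fun z => -K * (TP N a).eval (x / z))
      (bw (N + 2) (x / z) (a + 2)) z := by
    intro z hz
    have hz0 : 0 < z := lt_of_lt_of_le hx hz
    have h1 : HasDerivAt (fun z : ℝ => x / z) (-x / z ^ 2) z := by
      have h0 := (hasDerivAt_inv hz0.ne').const_mul x
      have e0 : (fun z : ℝ => x / z) = fun z => x * z⁻¹ := by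
        funext z; rw [div_eq_mul_inv]
      rw [e0]
      refine h0.congr_deriv ?_
      ring
    have h2 := ((TP N a).hasDerivAt (x / z)).comp z h1
    have h3 := h2.const_mul (-K)
    refine h3.congr_deriv ?_
    rw [TP_deriv N a haN, Polynomial.eval_mul, ← Pool.Agent.Y455.CG.bw_eval]
    simp only [Polynomial.eval_add, Polynomial.eval_natCast, Polynomial.eval_one]
    unfold bw
    have e1 : ((N + 2).choose (a + 2) : ℝ) * (((a : ℝ) + 2) * ((a : ℝ) + 1)) =
        ((N : ℝ) + 2) * ((N : ℝ) + 1) * (N.choose a : ℝ) := by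
      have i1 := Nat.add_one_mul_choose_eq (N + 1) (a + 1)
      have i2 := Nat.add_one_mul_choose_eq N a
      have j1 : ((N : ℝ) + 1 + 1) * ((N + 1).choose (a + 1) : ℝ) =
        ((N + 1 + 1).choose (a + 1 + 1) : ℝ) * ((a : ℝ) + 1 + 1) := by exact_mod_cast i1
      have j2 : ((N : ℝ) + 1) * (N.choose a : ℝ) =
        ((N + 1).choose (a + 1) : ℝ) * ((a : ℝ) + 1) := by exact_mod_cast i2
      have j3 : ((N + 2).choose (a + 2) : ℝ) = ((N + 1 + 1).choose (a + 1 + 1) : ℝ) := rfl
      rw [j3]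
      linear_combination (-((a : ℝ) + 1)) * j1 - ((N : ℝ) + 2) * j2
    have e2 : (N + 2) - (a + 2) = N - a := by omega
    rw [e2]
    have e3 : ((N + 2).choose (a + 2) : ℝ) = ((N : ℝ) + 2) * ((N : ℝ) + 1) * (N.choose a : ℝ) /
        (((a : ℝ) + 2) * ((a : ℝ) + 1)) := by
      rw [← e1]; field_simp
    rw [e3, hK, pow_add]
    have hz1 : z ≠ 0 := hz0.ne'
    have e4 : (x / z) ^ 2 = x * (x / z ^ 2) := by ring
    rw [e4]
    ring
  have hpos : ∀ z ∈ Ioi x, 0 ≤ bw (N + 2) (x / z) (a + 2) := by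
    intro z hz
    have hz0 : 0 < z := lt_trans hx hz
    have h1 : x / z ≤ 1 := (div_le_one hz0).2 (le_of_lt hz)
    exact Pool.Agent.Y455.CG.bw_nonneg _ (by positivity) h1 _
  have hlim : Tendsto (fun z => -K * (TP N a).eval (x / z)) atTop (𝓝 0) := by
    have h1 : Tendsto (fun z : ℝ => x / z) atTop (𝓝 0) := tendsto_const_nhds.div_atTop tendsto_id
    have h2 := ((TP N a).continuous.tendsto 0).comp h1
    rw [TP_zero] at h2
    have h3 := h2.const_mul (-K)
    rw [mul_zero] at h3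
    exact h3
  refine ⟨integrableOn_Ioi_deriv_of_nonneg' hder hpos hlim, ?_⟩
  rw [integral_Ioi_of_hasDerivAt_of_nonneg' hder hpos hlim, div_self hx.ne', TP_one N a haN, hK]
  push_cast
  ring

/-! ### step sequences -/

theorem F_small (g : ℕ → ℝ) (n : ℕ) (hn : n ≤ 1) (z : ℝ) : F g n z = 1 := by
  have h : {u : Fin n → ℝ | ¬ Hit g (fun _ => 1) z u} = Set.univ := by
    ext u
    simp only [Set.mem_ofPred_eq, Set.mem_univ, iff_true]
    rintro ⟨r, h1, h2⟩
    have := cnt_le (fun i : Fin n => g r * (fun _ => (1 : ℝ)) i) z u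
    omega
  unfold F
  rw [h]
  simp

/-- telescoping sum -/
theorem sum_tel (n : ℕ) (hn : 1 ≤ n) :
    ∑ c ∈ range (n + 1), 1 / ((c : ℝ) * ((c : ℝ) - 1)) = 1 - 1 / n := by
  induction n, hn using Nat.le_induction with
  | base => norm_num [Finset.sum_range_succ]
  | succ n hn ih =>
    rw [Finset.sum_range_succ, ih]
    have h1 : (0 : ℝ) < n := by exact_mod_cast hn
    have h2 : ((n + 1 : ℕ) : ℝ) - 1 = n := by push_cast; ring
    have h3 : ((n + 1 : ℕ) : ℝ) = n + 1 := by push_cast; ring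
    rw [h2, h3]
    field_simp
    ring

/-- the expansion of `F` above the level `x` -/
theorem F_expand (g : ℕ → ℝ) (n : ℕ) (x z : ℝ) (hx : 0 < x) (hz : x ≤ z)
    (hg : ∀ r, 2 ≤ r → r ≤ n → g r ≤ x) :
    F g n z = ∑ c ∈ range (n + 1), bw n (x / z) c * F g c x := by
  have hz0 : 0 < z := hx.trans_le hz
  have h1 : x / z * z = x := div_mul_cancel₀ x hz0.ne'
  have h2 := Pool.Agent.Y455.CG.the g n (x / z) z (div_pos hx hz0) ((div_le_one hz0).2 hz) hz0
    (fun r hr hr' => by rw [h1]; exact hg r hr hr')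
  rw [h1] at h2
  exact h2

/-- integration of a combination of binomial weights without the terms `0`, `1` -/
theorem int_comb (n : ℕ) (x : ℝ) (hx : 0 < x) (a : ℕ → ℝ) (h0 : a 0 = 0) (h1 : a 1 = 0) :
    IntegrableOn (fun z : ℝ => ∑ c ∈ range (n + 1), bw n (x / z) c * a c) (Ioi x) ∧
    ∫ z in Ioi x, ∑ c ∈ range (n + 1), bw n (x / z) c * a c =
      ∑ c ∈ range (n + 1), a c * (x * n / ((c : ℝ) * ((c : ℝ) - 1))) := by
  have key : ∀ c ∈ range (n + 1), IntegrableOn (fun z : ℝ => bw n (x / z) c * a c) (Ioi x) ∧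
      ∫ z in Ioi x, bw n (x / z) c * a c = a c * (x * n / ((c : ℝ) * ((c : ℝ) - 1))) := by
    intro c hc
    rw [Finset.mem_range] at hc
    by_cases hc2 : 2 ≤ c
    · obtain ⟨k1, k2⟩ := int n c x hc2 (by omega) hx
      exact ⟨k1.mul_const _, by rw [integral_mul_const, k2, mul_comm]⟩
    · have : a c = 0 := by
        have : c = 0 ∨ c = 1 := by omega
        rcases this with rfl | rfl <;> assumption
      rw [this]
      simp
  refine ⟨integrable_finsetSum _ fun c hc => (key c hc).1, ?_⟩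
  rw [integral_finsetSum _ fun c hc => (key c hc).1]
  exact Finset.sum_congr rfl fun c hc => (key c hc).2

theorem jst : S_JST := by
  intro g n m x hm hmn hx hg1 hg2
  have hn : 2 ≤ n := hm.trans hmn
  have hgn : g n = x := hg2 n hmn le_rfl
  set a : ℕ → ℝ := fun c => 1 - F g c x with ha
  have h0 : a 0 = 0 := by simp [ha, F_small]
  have h1 : a 1 = 0 := by simp [ha, F_small]
  obtain ⟨i1, i2⟩ := int_comb n x hx a h0 h1
  have hF : ∀ z ∈ Ioi x, 1 - F g n z = ∑ c ∈ range (n + 1), bw n (x / z) c * a c := by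
    intro z hz
    rw [F_expand g n x z hx (le_of_lt hz) hg1]
    nth_rewrite 1 [← Pool.Agent.Y455.CG.bw_sum n (x / z)]
    rw [← Finset.sum_sub_distrib]
    refine Finset.sum_congr rfl fun c _ => ?_
    rw [ha]
    ring
  have i3 : IntegrableOn (fun z => 1 - F g n z) (Ioi x) :=
    i1.congr_fun (fun z hz => (hF z hz).symm) measurableSet_Ioi
  have hJ : J g n = x + ∫ z in Ioi x, (1 - F g n z) := by
    unfold J
    have h1 : ∀ z ∈ Ioc (0 : ℝ) x, 1 - F g n z = 1 := by
      intro z hz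
      rw [Pool.Agent.Y563.CG.Fb.zer g n z hn hz.1 (by rw [hgn]; exact hz.2), sub_zero]
    have h2 : IntegrableOn (fun z => 1 - F g n z) (Ioc 0 x) := by
      refine IntegrableOn.congr_fun (f := fun _ => (1 : ℝ)) ?_ (fun z hz => (h1 z hz).symm)
        measurableSet_Ioc
      exact integrableOn_const (by simp)
    rw [← Ioc_union_Ioi_eq_Ioi hx.le, setIntegral_union (Ioc_disjoint_Ioi le_rfl)
      measurableSet_Ioi h2 i3, setIntegral_congr_fun measurableSet_Ioc h1]
    simp [hx.le]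
  rw [hJ, setIntegral_congr_fun measurableSet_Ioi hF, i2]
  have e1 : ∑ c ∈ range (n + 1), a c * (x * n / ((c : ℝ) * ((c : ℝ) - 1))) =
      x * n * (∑ c ∈ range (n + 1), 1 / ((c : ℝ) * ((c : ℝ) - 1)) -
        ∑ c ∈ range (n + 1), F g c x / ((c : ℝ) * ((c : ℝ) - 1))) := by
    rw [← Finset.sum_sub_distrib, Finset.mul_sum]
    refine Finset.sum_congr rfl fun c _ => ?_
    rw [ha]
    ring
  have e2 : ∑ c ∈ range (n + 1), F g c x / ((c : ℝ) * ((c : ℝ) - 1)) =
      ∑ c ∈ range m, F g c x / ((c : ℝ) * ((c : ℝ) - 1)) := by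
    symm
    refine Finset.sum_subset (fun c hc => ?_) (fun c hc hc2 => ?_)
    · rw [Finset.mem_range] at hc ⊢; omega
    · rw [Finset.mem_range] at hc hc2
      rw [Pool.Agent.Y563.CG.Fb.zer g c x (by omega) hx
        (by rw [hg2 c (by omega) (by omega)]), zero_div]
  rw [e1, e2, sum_tel n (by omega)]
  have hn0 : (0 : ℝ) < n := by exact_mod_cast (show 0 < n by omega)
  field_simp
  ring

end Pool.Agent.Y908.CG
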