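import Pool.Agent.Y908.CG.Int

/-!
# Project CG: the limit of `W g k` for step sequences
-/

set_option autoImplicit false

open MeasureTheory Finset Set Filter Topology

namespace Pool.Agent.Y908.CG

open Pool.Agent.Y171.CG

/-- Cauchy product of finite sums -/
theorem conv (a : ℕ → ℝ) (k : ℕ) (ha : ∀ c, k < c → a c = 0) :
    (∑ c ∈ range (k + 1), a c) ^ 2 =
      ∑ n ∈ range (2 * k + 1), ∑ c ∈ range (n + 1), a c * a (n - c) := by
  set P : Polynomial ℝ := ∑ c ∈ range (k + 1), Polynomial.C (a c) * Polynomial.X ^ c with hP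
  have hc : ∀ c, P.coeff c = a c := by
    intro c
    rw [hP, Polynomial.finsetSum_coeff]
    simp only [Polynomial.coeff_C_mul_X_pow]
    by_cases h : c < k + 1
    · rw [Finset.sum_eq_single c]
      · simp
      · intro b _ hb
        rw [if_neg (fun h => hb h.symm)]
      · intro h2
        exact absurd (Finset.mem_range.2 h) h2
    · rw [ha c (by omega)]
      refine Finset.sum_eq_zero fun b hb => ?_
      rw [Finset.mem_range] at hb
      rw [if_neg (by omega)]
  have hd : P.natDegree ≤ k := by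
    rw [Polynomial.natDegree_le_iff_coeff_eq_zero]
    intro N hN
    rw [hc]
    exact ha N hN
  have hd2 : (P * P).natDegree < 2 * k + 1 := by
    have := Polynomial.natDegree_mul_le (p := P) (q := P)
    omega
  have h1 : (P * P).eval 1 = (∑ c ∈ range (k + 1), a c) ^ 2 := by
    rw [Polynomial.eval_mul, hP, Polynomial.eval_finsetSum]
    simp [sq]
  rw [← h1, Polynomial.eval_eq_sum_range' hd2]
  refine Finset.sum_congr rfl fun n _ => ?_
  rw [one_pow, mul_one, Polynomial.coeff_mul,
    Finset.Nat.sum_antidiagonal_eq_sum_range_succ_mk]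
  exact Finset.sum_congr rfl fun c _ => by rw [hc, hc]

/-- the hypergeometric coefficient -/
noncomputable def hy (k n c : ℕ) : ℝ :=
  (k.choose c : ℝ) * (k.choose (n - c) : ℝ) / ((2 * k).choose n : ℝ)

theorem bw_mul (k n c : ℕ) (y : ℝ) (hn : n ≤ 2 * k) (hc : c ≤ n) :
    bw k y c * bw k y (n - c) = hy k n c * bw (2 * k) y n := by
  have h0 : ((2 * k).choose n : ℝ) ≠ 0 := by
    have := Nat.choose_pos hn
    positivity
  unfold bw hy
  by_cases h1 : c ≤ k
  · by_cases h2 : n - c ≤ k
    · have e1 : y ^ n = y ^ c * y ^ (n - c) := by rw [← pow_add]; congr 1; omega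
      have e2 : (1 - y) ^ (2 * k - n) = (1 - y) ^ (k - c) * (1 - y) ^ (k - (n - c)) := by
        rw [← pow_add]; congr 1; omega
      rw [e1, e2]
      field_simp
    · rw [Nat.choose_eq_zero_of_lt (show k < n - c by omega)]
      simp
  · rw [Nat.choose_eq_zero_of_lt (show k < c by omega)]
    simp

theorem tend_choose (c : ℕ) :
    Tendsto (fun k : ℕ => (k.choose c : ℝ) / (k : ℝ) ^ c) atTop (𝓝 (1 / c.factorial)) := by
  have h := (isEquivalent_choose c)
  have h0 : ∀ᶠ k : ℕ in atTop, ((k : ℝ) ^ c / c.factorial) ≠ 0 := by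
    filter_upwards [eventually_gt_atTop 0] with k hk
    have : (0 : ℝ) < k := by exact_mod_cast hk
    positivity
  rw [Asymptotics.isEquivalent_iff_tendsto_one h0] at h
  have h2 := h.mul_const (1 / (c.factorial : ℝ))
  rw [one_mul] at h2
  refine h2.congr' ?_
  filter_upwards [eventually_gt_atTop 0] with k hk
  have : (0 : ℝ) < k := by exact_mod_cast hk
  have h3 : (0 : ℝ) < c.factorial := by positivity
  simp only [Pi.div_apply]
  field_simp

theorem tend_hy (n c : ℕ) (hc : c ≤ n) :
    Tendsto (fun k : ℕ => hy k n c) atTop (𝓝 ((n.choose c : ℝ) / 2 ^ n)) := by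
  have h1 := (tend_choose c).mul (tend_choose (n - c))
  have h2 : Tendsto (fun k : ℕ => (((2 * k).choose n : ℝ)) / ((2 * k : ℕ) : ℝ) ^ n) atTop
      (𝓝 (1 / n.factorial)) :=
    (tend_choose n).comp (tendsto_atTop_mono (fun k => by simp only [id]; omega) tendsto_id)
  have h3 := (h1.div h2 (by positivity)).div_const (2 ^ n)
  have e : 1 / (c.factorial : ℝ) * (1 / ((n - c).factorial : ℝ)) / (1 / (n.factorial : ℝ)) / 2 ^ n =
      (n.choose c : ℝ) / 2 ^ n := by
    rw [Nat.cast_choose ℝ hc]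
    field_simp
  rw [e] at h3
  refine h3.congr' ?_
  filter_upwards [eventually_ge_atTop (n + 1)] with k hk
  have hk0 : (0 : ℝ) < k := by exact_mod_cast (show 0 < k by omega)
  have h4 : (0 : ℝ) < ((2 * k).choose n : ℝ) := by
    exact_mod_cast Nat.choose_pos (show n ≤ 2 * k by omega)
  have e1 : (k : ℝ) ^ n = (k : ℝ) ^ c * (k : ℝ) ^ (n - c) := by
    rw [← pow_add]; congr 1; omega
  simp only [Pi.div_apply]
  unfold hy
  push_cast
  rw [mul_pow, e1]
  field_simp

/-- the coefficients of `F ^ 2` -/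
noncomputable def be (g : ℕ → ℝ) (x : ℝ) (k n : ℕ) : ℝ :=
  ∑ c ∈ range (n + 1), hy k n c * (F g c x * F g (n - c) x)

theorem W_step (g : ℕ → ℝ) (m : ℕ) (x : ℝ) (hm : 2 ≤ m) (hx : 0 < x)
    (hg1 : ∀ r, 2 ≤ r → g r ≤ x) (hg2 : ∀ r, m ≤ r → g r = x) (k : ℕ) (hk : m ≤ k) :
    W g k = x * (1 - ∑ n ∈ range (2 * m - 1), be g x k n / ((n : ℝ) * ((n : ℝ) - 1))) := by
  have hk2 : 2 ≤ k := hm.trans hk
  have hk0 : (0 : ℝ) < k := by exact_mod_cast (show 0 < k by omega)
  set a : ℕ → ℝ := fun n => 1 - be g x k n with ha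
  have h0 : a 0 = 0 := by
    simp [ha, be, hy, F_small]
  have h1 : a 1 = 0 := by
    simp only [ha, be, hy, Finset.sum_range_succ, Finset.sum_range_zero]
    rw [F_small g 0 (by omega), F_small g 1 (by omega)]
    simp only [Nat.sub_zero, Nat.sub_self, Nat.choose_zero_right, Nat.choose_one_right]
    push_cast
    field_simp
    ring
  obtain ⟨i1, i2⟩ := int_comb (2 * k) x hx a h0 h1
  have hF : ∀ z ∈ Ioi x, 1 - F g k (z / 1) * F g k (z / 1) =
      ∑ n ∈ range (2 * k + 1), bw (2 * k) (x / z) n * a n := by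
    intro z hz
    have e1 : F g k z ^ 2 = ∑ n ∈ range (2 * k + 1), bw (2 * k) (x / z) n * be g x k n := by
      rw [F_expand g k x z hx (le_of_lt hz) (fun r h _ => hg1 r h),
        conv (fun c => bw k (x / z) c * F g c x) k (fun c hc => by
          simp [bw, Nat.choose_eq_zero_of_lt hc])]
      refine Finset.sum_congr rfl fun n hn => ?_
      rw [Finset.mem_range] at hn
      rw [be, Finset.mul_sum]
      refine Finset.sum_congr rfl fun c hc => ?_
      rw [Finset.mem_range] at hc
      have := bw_mul k n c (x / z) (by omega) (by omega)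
      linear_combination (F g c x * F g (n - c) x) * this
    rw [div_one, ← sq, e1]
    nth_rewrite 1 [← Pool.Agent.Y455.CG.bw_sum (2 * k) (x / z)]
    rw [← Finset.sum_sub_distrib]
    refine Finset.sum_congr rfl fun c _ => ?_
    rw [ha]
    ring
  have i3 : IntegrableOn (fun z => 1 - F g k (z / 1) * F g k (z / 1)) (Ioi x) :=
    i1.congr_fun (fun z hz => (hF z hz).symm) measurableSet_Ioi
  have hJ : Psi g k k 1 1 = x + ∫ z in Ioi x, (1 - F g k (z / 1) * F g k (z / 1)) := by
    unfold Psi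
    have h1 : ∀ z ∈ Ioc (0 : ℝ) x, 1 - F g k (z / 1) * F g k (z / 1) = 1 := by
      intro z hz
      rw [div_one, Pool.Agent.Y563.CG.Fb.zer g k z hk2 hz.1 (by rw [hg2 k hk]; exact hz.2),
        mul_zero, sub_zero]
    have h2 : IntegrableOn (fun z => 1 - F g k (z / 1) * F g k (z / 1)) (Ioc 0 x) := by
      refine IntegrableOn.congr_fun (f := fun _ => (1 : ℝ)) ?_ (fun z hz => (h1 z hz).symm)
        measurableSet_Ioc
      exact integrableOn_const (by simp)
    rw [← Ioc_union_Ioi_eq_Ioi hx.le, setIntegral_union (Ioc_disjoint_Ioi le_rfl)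
      measurableSet_Ioi h2 i3, setIntegral_congr_fun measurableSet_Ioc h1]
    simp [hx.le]
  unfold W
  rw [hJ, setIntegral_congr_fun measurableSet_Ioi hF, i2]
  have e1 : ∑ c ∈ range (2 * k + 1), a c * (x * ((2 * k : ℕ) : ℝ) / ((c : ℝ) * ((c : ℝ) - 1))) =
      x * ((2 * k : ℕ) : ℝ) * (∑ c ∈ range (2 * k + 1), 1 / ((c : ℝ) * ((c : ℝ) - 1)) -
        ∑ c ∈ range (2 * k + 1), be g x k c / ((c : ℝ) * ((c : ℝ) - 1))) := by
    rw [← Finset.sum_sub_distrib, Finset.mul_sum]
    refine Finset.sum_congr rfl fun c _ => ?_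
    rw [ha]
    ring
  have e2 : ∑ c ∈ range (2 * k + 1), be g x k c / ((c : ℝ) * ((c : ℝ) - 1)) =
      ∑ c ∈ range (2 * m - 1), be g x k c / ((c : ℝ) * ((c : ℝ) - 1)) := by
    symm
    refine Finset.sum_subset (fun c hc => ?_) (fun n hc hc2 => ?_)
    · rw [Finset.mem_range] at hc ⊢; omega
    · rw [Finset.mem_range] at hc hc2
      have hz : ∀ c, m ≤ c → F g c x = 0 := fun c hc =>
        Pool.Agent.Y563.CG.Fb.zer g c x (by omega) hx (by rw [hg2 c hc])
      have : be g x k n = 0 := by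
        rw [be]
        refine Finset.sum_eq_zero fun c hcc => ?_
        rw [Finset.mem_range] at hcc
        by_cases h : m ≤ c
        · rw [hz c h]; ring
        · rw [hz (n - c) (by omega)]; ring
      rw [this, zero_div]
  rw [e1, e2, sum_tel (2 * k) (by omega)]
  push_cast
  field_simp
  ring

theorem wlm : S_WLM := by
  intro g m x hm hx hg1 hg2
  have h1 : Tendsto (fun k => x * (1 - ∑ n ∈ range (2 * m - 1),
      be g x k n / ((n : ℝ) * ((n : ℝ) - 1)))) atTop (𝓝 (x * (1 - ∑ n ∈ range (2 * m - 1),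
    (∑ c ∈ range (n + 1), (n.choose c : ℝ) * (F g c x * F g (n - c) x)) /
      (2 ^ n * ((n : ℝ) * ((n : ℝ) - 1)))))) := by
    refine Tendsto.const_mul _ (Tendsto.const_sub _ (tendsto_finsetSum _ fun n _ => ?_))
    have h2 : (∑ c ∈ range (n + 1), (n.choose c : ℝ) * (F g c x * F g (n - c) x)) /
        (2 ^ n * ((n : ℝ) * ((n : ℝ) - 1))) =
        (∑ c ∈ range (n + 1), (n.choose c : ℝ) / 2 ^ n * (F g c x * F g (n - c) x)) /
        ((n : ℝ) * ((n : ℝ) - 1)) := by
      rw [← div_div, Finset.sum_div]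
      congr 1
      refine Finset.sum_congr rfl fun c _ => ?_
      ring
    rw [h2]
    refine Tendsto.div_const (tendsto_finsetSum _ fun c hc => ?_) _
    rw [Finset.mem_range] at hc
    exact (tend_hy n c (by omega)).mul_const _
  refine h1.congr' ?_
  filter_upwards [eventually_ge_atTop m] with k hk
  exact (W_step g m x hm hx hg1 hg2 k hk).symm

end Pool.Agent.Y908.CG
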